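import Pool.Agent.helper95.FR.Spec

/-! # The basic lemma on the class `KS` -/

set_option autoImplicit false

namespace Pool.Agent.helper95.FR

open scoped commutatorElement

universe u

lemma KSL_L1 (hBAS : BAS_stmt.{u}) {G : Type u} [Group G] (N : Subgroup G) (hK : KS N) (x : G) (hx : x ∈ N)
    (z : G) (hz : z ∈ NC N x) (hc : ∀ w ∈ NC N x, z * w = w * z) : z = 1 := by
  obtain ⟨b1, b2, b3, b4, b5, b6, b7⟩ := hBAS G N x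
  obtain ⟨g, hg, h, _, k, _, e⟩ := hK.A2 z (b2 hx hz)
  have h1 : ⁅z, g * z * g⁻¹⁆ = 1 :=
    commutatorElement_eq_one_iff_mul_comm.2 (hc _ (b3 g hg z hz))
  rw [h1] at e
  rw [e]
  group

lemma KSL_L2 (hBAS : BAS_stmt.{u}) {G : Type u} [Group G] (N : Subgroup G) (hK : KS N) (x : G) (hx : x ∈ N)
    (y : G) (hy : y ∈ N) : ∃ y' ∈ NC N x, ∃ y'' ∈ N, (∀ z ∈ NC N x, y'' * z = z * y'') ∧ y = y' * y'' := by
  obtain ⟨b1, b2, b3, b4, b5, b6, b7⟩ := hBAS G N x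
  obtain ⟨u, hu, hp⟩ := hK.A1 x hx y hy
  have h1 := b7 u hu
  exact ⟨u, h1, u⁻¹ * y, N.mul_mem (N.inv_mem (b2 hx h1)) hy, (b4 _).1 hp, by group⟩

lemma KSL_L3 (hBAS : BAS_stmt.{u}) {G : Type u} [Group G] (N : Subgroup G) (hK : KS N) (x : G) (hx : x ∈ N)
    (g : G) (hg : g ∈ N) : ∃ s ∈ NC N x, ∀ z ∈ NC N x, g * z * g⁻¹ = s * z * s⁻¹ := by
  obtain ⟨s, hs, t, _, hc, e⟩ := KSL_L2 hBAS N hK x hx g hg
  refine ⟨s, hs, fun z hz => ?_⟩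
  have h1 := hc z hz
  calc g * z * g⁻¹ = s * (t * z) * (t⁻¹ * s⁻¹) := by rw [e]; group
    _ = s * (z * t) * (t⁻¹ * s⁻¹) := by rw [h1]
    _ = s * z * s⁻¹ := by group

lemma KSL_L4 (hBAS : BAS_stmt.{u}) {G : Type u} [Group G] (N : Subgroup G) (hK : KS N) (x : G) (hx : x ∈ N)
    (y : G) (hy : y ∈ NC N x) : ∃ h ∈ NC N x, ∃ k ∈ NC N x, y = h * x * h⁻¹ * (k * x⁻¹ * k⁻¹) := by
  obtain ⟨b1, b2, b3, b4, b5, b6, b7⟩ := hBAS G N x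
  obtain ⟨u, hu, hp⟩ := hK.A1 x hx y (b2 hx hy)
  have h1 := b7 u hu
  have h2 : u⁻¹ * y = 1 := KSL_L1 hBAS N hK x hx _ ((NC N x).mul_mem ((NC N x).inv_mem h1) hy) ((b4 _).1 hp)
  have h3 : y = u := (inv_mul_eq_one.1 h2).symm
  obtain ⟨h, hh, k, hk, e⟩ := hu
  obtain ⟨s, hs, es⟩ := KSL_L3 hBAS N hK x hx h hh
  obtain ⟨t, ht, et⟩ := KSL_L3 hBAS N hK x hx k hk
  refine ⟨s, hs, t, ht, ?_⟩
  rw [h3, e, es x b1, et x⁻¹ ((NC N x).inv_mem b1)]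

lemma KSL_L5 (hBAS : BAS_stmt.{u}) {G : Type u} [Group G] (N : Subgroup G) (hK : KS N) (x : G) (hx : x ∈ N)
    (y : G) (hy : y ∈ N) (y' : G) (hy' : y' ∈ NC N x) (y'' : G) (hc : ∀ z ∈ NC N x, y'' * z = z * y'')
    (e : y = y' * y'') : y' ∈ NC N y := by
  obtain ⟨b1, b2, b3, b4, b5, b6, b7⟩ := hBAS G N x
  obtain ⟨g, hg, hw⟩ := hK.A2 y' (b2 hx hy')
  have ht : g * y' * g⁻¹ ∈ NC N x := b3 g hg y' hy'
  have htN : g * y' * g⁻¹ ∈ N := b2 hx ht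
  obtain ⟨t, et⟩ : ∃ t, t = g * y' * g⁻¹ := ⟨_, rfl⟩
  rw [← et] at hw ht htN
  have h1 : y' ∈ NC N ⁅y', t⁆ := (hBAS G N ⁅y', t⁆).2.2.2.2.2.2 y' hw
  have h2 : ⁅y', t⁆ = y * (t * y⁻¹ * t⁻¹) := by
    rw [commutatorElement_def, e]
    calc y' * t * y'⁻¹ * t⁻¹ = y' * (t * y'') * y''⁻¹ * y'⁻¹ * t⁻¹ := by group
      _ = y' * (y'' * t) * y''⁻¹ * y'⁻¹ * t⁻¹ := by rw [hc t ht]
      _ = y' * y'' * (t * (y' * y'')⁻¹ * t⁻¹) := by group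
  obtain ⟨c1, c2, c3, c4, c5, c6, c7⟩ := hBAS G N y
  have h3 : ⁅y', t⁆ ∈ NC N y := by
    rw [h2]
    exact (NC N y).mul_mem c1 (c3 t htN _ ((NC N y).inv_mem c1))
  exact c5 _ h3 h1

/-- The basic lemma. -/
theorem KSL (hBAS : BAS_stmt.{u}) : KSL_stmt.{u} := by
  intro G _ N hK x hx
  refine ⟨⟨KSL_L2 hBAS N hK x hx, KSL_L1 hBAS N hK x hx⟩, KSL_L3 hBAS N hK x hx, KSL_L4 hBAS N hK x hx,
    KSL_L5 hBAS N hK x hx, ?_⟩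
  obtain ⟨b1, b2, b3, b4, b5, b6, b7⟩ := hBAS G N x
  obtain ⟨g, hg, hw⟩ := hK.A2 x hx
  obtain ⟨s, hs, es⟩ := KSL_L3 hBAS N hK x hx g hg
  rw [es x b1] at hw
  have h0 : s * x * s⁻¹ ∈ NC N x := (NC N x).mul_mem ((NC N x).mul_mem hs b1) ((NC N x).inv_mem hs)
  have h1 : ⁅x, s * x * s⁻¹⁆ ∈ NC N x := by
    rw [commutatorElement_def]
    exact (NC N x).mul_mem ((NC N x).mul_mem ((NC N x).mul_mem b1 h0) ((NC N x).inv_mem b1)) ((NC N x).inv_mem h0)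
  have h2 : x ∈ NC N ⁅x, s * x * s⁻¹⁆ := (hBAS G N ⁅x, s * x * s⁻¹⁆).2.2.2.2.2.2 x hw
  exact ⟨s, hs, h1, KSL_L4 hBAS N hK _ (b2 hx h1) x h2⟩

end Pool.Agent.helper95.FR
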